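import Pool.Agent.Y215.CT.Stm

/-!
# The count of pairs
-/

set_option autoImplicit false

namespace Pool.Agent.Y812.CT

open Finset
open Pool.Agent.Y215.CT

lemma pairs_card (U : Finset ℕ) (P : Finset (ℕ × ℕ))
    (hP : ∀ x ∈ P, x.1 ∈ U ∧ x.2 ∈ U ∧ x.1 < x.2) : 2 * P.card ≤ U.card ^ 2 := by
  classical
  have h1 : (P.image Prod.swap).card = P.card :=
    Finset.card_image_of_injective _ Prod.swap_injective
  have h2 : Disjoint P (P.image Prod.swap) := by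
    rw [Finset.disjoint_left]
    intro x hx hx'
    rw [Finset.mem_image] at hx'
    obtain ⟨y, hy, rfl⟩ := hx'
    have h3 := (hP _ hx).2.2
    have h4 := (hP _ hy).2.2
    simp only [Prod.fst_swap, Prod.snd_swap] at h3
    omega
  have h3 : P ∪ P.image Prod.swap ⊆ U ×ˢ U := by
    intro x hx
    rw [Finset.mem_union, Finset.mem_image] at hx
    rw [Finset.mem_product]
    rcases hx with hx | ⟨y, hy, rfl⟩
    · exact ⟨(hP _ hx).1, (hP _ hx).2.1⟩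
    · exact ⟨(hP _ hy).2.1, (hP _ hy).1⟩
  have h4 := Finset.card_le_card h3
  rw [Finset.card_union_of_disjoint h2, h1, Finset.card_product] at h4
  nlinarith

lemma basic {g R Q B q a b i y : ℕ} (hsz : 108 * Q ^ 2 * B < R ^ g)
    (hq2 : q ≤ 3 * Q) (ha1 : R < a) (ha2 : a ≤ 3 * R) (hb2 : b ≤ 3 * R)
    (hab : a < b) (hi : i < B) (h2 : y ≤ 6 * q ^ 2 * (i + 1)) :
    R ^ 2 < a * b ∧ a * b < 9 * R ^ 2 ∧ y ≤ 54 * Q ^ 2 * B ∧ 4 * y ^ 2 < (a * b) ^ g := by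
  have h3 : R ^ 2 < a * b := by nlinarith
  have h4 : y ≤ 54 * Q ^ 2 * B := by
    have h5 : q ^ 2 ≤ (3 * Q) ^ 2 := Nat.pow_le_pow_left hq2 2
    calc y ≤ 6 * q ^ 2 * (i + 1) := h2
      _ ≤ 6 * (3 * Q) ^ 2 * B := Nat.mul_le_mul (Nat.mul_le_mul_left 6 h5) hi
      _ = 54 * Q ^ 2 * B := by ring
  refine ⟨h3, by nlinarith, h4, ?_⟩
  have h5 : 2 * y < R ^ g := by
    have : 2 * y ≤ 2 * (54 * Q ^ 2 * B) := Nat.mul_le_mul_left 2 h4
    have h6 : 2 * (54 * Q ^ 2 * B) = 108 * Q ^ 2 * B := by ring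
    omega
  calc 4 * y ^ 2 = (2 * y) ^ 2 := by ring
    _ < (R ^ g) ^ 2 := Nat.pow_lt_pow_left h5 two_ne_zero
    _ = (R ^ 2) ^ g := by rw [← pow_mul, ← pow_mul, mul_comm]
    _ ≤ (a * b) ^ g := Nat.pow_le_pow_left h3.le g

lemma fib {V' : Finset ℕ} {T Q k : ℕ} (hQ : 2 ≤ Q) (hV : ∀ q ∈ V', q.Prime ∧ Q < q ∧ q ^ 2 ∣ T)
    (hT : 0 < T) (hT2 : T < Q ^ (2 * k)) : V'.card ≤ k := by
  have h1 : ∏ q ∈ V', q ^ 2 ∣ T := by
    refine Finset.prod_dvd_of_isRelPrime ?_ fun q hq => (hV q hq).2.2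
    intro p hp q hq hpq
    exact Nat.coprime_iff_isRelPrime.1 (Nat.Coprime.pow 2 2
      ((Nat.coprime_primes (hV p hp).1 (hV q hq).1).2 hpq))
  have h2 : (Q ^ 2) ^ V'.card ≤ ∏ q ∈ V', q ^ 2 := by
    rw [← Finset.prod_const]
    exact Finset.prod_le_prod' fun q hq => Nat.pow_le_pow_left (hV q hq).2.1.le 2
  have h3 := (h2.trans (Nat.le_of_dvd hT h1)).trans_lt hT2
  rw [← pow_mul] at h3
  have := (Nat.pow_lt_pow_iff_right (by omega : 1 < Q)).1 h3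
  omega

lemma sqf {T n m g q Q : ℕ} (h : n ^ 2 + T = 4 * m ^ g) (hn : Odd n) (hq : q.Prime)
    (hqT : q ^ 2 ∣ T) (hT : 0 < T) (hQ : Q < q) :
    ∃ d q' : ℕ, Squarefree d ∧ d % 4 = 3 ∧ 0 < d ∧ Q < q' ∧ n ^ 2 + d * q' ^ 2 = 4 * m ^ g := by
  obtain ⟨d, q', hdq, hd⟩ := Nat.sq_mul_squarefree T
  have h1 : q ∣ q' := by
    by_contra hno
    have h2 : Nat.Coprime (q ^ 2) (q' ^ 2) := Nat.Coprime.pow 2 2 ((Nat.Prime.coprime_iff_not_dvd hq).2 hno)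
    rw [← hdq] at hqT
    have h3 := h2.dvd_of_dvd_mul_left hqT
    rw [pow_two] at h3
    exact hq.one_lt.ne' (Nat.isUnit_iff.1 (hd q h3))
  have hq' : 0 < q' := by
    rcases Nat.eq_zero_or_pos q' with h2 | h2
    · rw [h2] at hdq; simp at hdq; omega
    · exact h2
  have hd0 : 0 < d := by
    rcases Nat.eq_zero_or_pos d with h2 | h2
    · rw [h2] at hdq; simp at hdq; omega
    · exact h2
  have h2 : n ^ 2 + d * q' ^ 2 = 4 * m ^ g := by rw [← h, ← hdq]; ring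
  refine ⟨d, q', hd, ?_, hd0, lt_of_lt_of_le hQ (Nat.le_of_dvd hq' h1), h2⟩
  have h3 : (n ^ 2 + d * q' ^ 2) % 4 = 0 := by rw [h2]; exact Nat.mul_mod_right 4 _
  obtain ⟨t, rfl⟩ := hn
  have h4 : ((2 * t + 1) ^ 2) % 4 = 1 := by
    have : (2 * t + 1) ^ 2 = 4 * (t ^ 2 + t) + 1 := by ring
    omega
  rcases Nat.even_or_odd q' with ⟨s, hs⟩ | ⟨s, hs⟩
  · have : d * q' ^ 2 = 4 * (d * s ^ 2) := by rw [hs]; ring
    omega
  · have : d * q' ^ 2 = 4 * (d * (s ^ 2 + s)) + d := by rw [hs]; ring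
    omega

lemma prime_pair {a b a' b' : ℕ} (ha : a.Prime) (hb : b.Prime) (ha' : a'.Prime) (hb' : b'.Prime)
    (hab : a < b) (hab' : a' < b') (h : a * b = a' * b') : a = a' ∧ b = b' := by
  have h1 : a ∣ a' * b' := ⟨b, h.symm⟩
  rcases (Nat.Prime.dvd_mul ha).1 h1 with h2 | h2
  · have h3 := (Nat.prime_dvd_prime_iff_eq ha ha').1 h2
    subst h3
    exact ⟨rfl, Nat.eq_of_mul_eq_mul_left ha.pos h⟩
  · have h3 := (Nat.prime_dvd_prime_iff_eq ha hb').1 h2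
    subst h3
    rw [mul_comm a' a] at h
    have := Nat.eq_of_mul_eq_mul_left ha.pos h
    omega

theorem t_CORE' : S_CORE' := by
  classical
  intro hRES hSEL hREP g R Q B Z k U V D hk
  obtain ⟨hodd, hR, hQ, hU, hV, hdis, hsz⟩ := D
  have hU2 : ∀ a ∈ U, a ≠ 2 := fun a ha => by have := (hU a ha).2.1; omega
  have hV2 : ∀ q ∈ V, q ≠ 2 := fun a ha => by have := (hV a ha).2.1; omega
  have hne : ∀ a ∈ U, ∀ q ∈ V, a ≠ q := fun a ha q hq h =>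
    Finset.disjoint_left.1 hdis ha (h ▸ hq)
  have hT : ∀ q : ℕ, ∃ T : Finset (ℕ × ℕ), q ∈ V → (∀ x ∈ T, x.1 ∈ U ∧ x.2 ∈ U ∧ x.1 < x.2 ∧
      IsSquare ((x.1 * x.2 : ℕ) : ZMod q)) ∧ U.card * (U.card - 2) ≤ 4 * T.card := by
    intro q
    by_cases hq : q ∈ V
    · have h := hRES q (hV q hq).1 (hV2 q hq) U fun a ha =>
        (Nat.coprime_primes (hU a ha).1 (hV q hq).1).2 (hne a ha q hq)
      refine ⟨_, fun _ => ⟨fun x hx => ?_, h⟩⟩
      simp only [mem_filter, mem_product] at hx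
      exact ⟨hx.1.1, hx.1.2, hx.2.1, hx.2.2⟩
    · exact ⟨∅, fun h => absurd h hq⟩
  choose T hT using hT
  have hn : ∀ q a b i : ℕ, ∃ n : ℕ, q ∈ V → (a, b) ∈ T q → 6 * q ^ 2 * i < n ∧
      n ≤ 6 * q ^ 2 * (i + 1) ∧ Odd n ∧ Nat.Coprime (a * b) n ∧
      (n : ZMod (q ^ 2)) ^ 2 = 4 * ((a * b : ℕ) : ZMod (q ^ 2)) ^ g := by
    intro q a b i
    by_cases h : q ∈ V ∧ (a, b) ∈ T q
    · obtain ⟨hq, hab⟩ := h
      obtain ⟨ha, hb, hlt, hsq⟩ := (hT q hq).1 _ hab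
      obtain ⟨n, hn⟩ := hSEL g q a b i hodd (hV q hq).1 (hV2 q hq) (hU a ha).1 (hU b hb).1 hlt.ne
        (hU2 a ha) (hU2 b hb) (hne a ha q hq) (hne b hb q hq) hsq
      exact ⟨n, fun _ _ => hn⟩
    · exact ⟨0, fun h1 h2 => absurd ⟨h1, h2⟩ h⟩
  choose n hn using hn
  have key : ∀ q a b i, q ∈ V → (a, b) ∈ T q → i < B → a ∈ U ∧ b ∈ U ∧ a < b ∧
      R ^ 2 < a * b ∧ a * b < 9 * R ^ 2 ∧ 0 < n q a b i ∧ n q a b i ≤ 54 * Q ^ 2 * B ∧
      4 * n q a b i ^ 2 < (a * b) ^ g ∧ Odd (n q a b i) ∧ Nat.Coprime (a * b) (n q a b i) ∧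
      q ^ 2 ∣ 4 * (a * b) ^ g - n q a b i ^ 2 := by
    intro q a b i hq hab hi
    obtain ⟨ha, hb, hlt, hsq⟩ := (hT q hq).1 _ hab
    obtain ⟨h1, h2, h3, h4, h5⟩ := hn q a b i hq hab
    obtain ⟨h6, h7, h8, h9⟩ := basic hsz (hV q hq).2.2 (hU a ha).2.1 (hU a ha).2.2 (hU b hb).2.2
      hlt hi h2
    refine ⟨ha, hb, hlt, h6, h7, by omega, h8, h9, h3, h4, ?_⟩
    have h10 : n q a b i ^ 2 ≤ 4 * (a * b) ^ g := by omega
    have h11 : (n q a b i ^ 2 : ℕ) ≡ 4 * (a * b) ^ g [MOD q ^ 2] := by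
      rw [← ZMod.natCast_eq_natCast_iff]
      push_cast
      push_cast at h5
      exact h5
    exact (Nat.modEq_iff_dvd' h10).1 h11
  set E : Finset (Σ _ : ℕ, (ℕ × ℕ) × ℕ) := V.sigma (fun q => T q ×ˢ range B) with hEdef
  have memE : ∀ e : (Σ _ : ℕ, (ℕ × ℕ) × ℕ), e ∈ E ↔
      e.1 ∈ V ∧ (e.2.1.1, e.2.1.2) ∈ T e.1 ∧ e.2.2 < B := by
    intro e
    rw [hEdef, Finset.mem_sigma, Finset.mem_product, Finset.mem_range]
  have hE : V.card * (U.card * (U.card - 2)) * B ≤ 4 * E.card := by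
    rw [hEdef, Finset.card_sigma, Finset.mul_sum]
    calc V.card * (U.card * (U.card - 2)) * B = ∑ q ∈ V, (U.card * (U.card - 2)) * B := by
          rw [Finset.sum_const, smul_eq_mul, mul_assoc]
      _ ≤ ∑ q ∈ V, 4 * (T q ×ˢ range B).card := Finset.sum_le_sum fun q hq => by
          rw [Finset.card_product, Finset.card_range, ← mul_assoc]
          exact Nat.mul_le_mul_right _ (hT q hq).2
  let φ : (Σ _ : ℕ, (ℕ × ℕ) × ℕ) → ℕ × ℕ := fun e =>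
    (e.2.1.1 * e.2.1.2, n e.1 e.2.1.1 e.2.1.2 e.2.2)
  set P := E.image φ with hPdef
  -- the fibres
  have hfib : E.card ≤ k * P.card := by
    refine Finset.card_le_mul_card_image E k fun p hp => ?_
    obtain ⟨e0, he0, rfl⟩ := Finset.mem_image.1 hp
    obtain ⟨q0, ⟨⟨a0, b0⟩, i0⟩⟩ := e0
    obtain ⟨hq0, hab0, hi0⟩ := (memE _).1 he0
    simp only at hq0 hab0 hi0
    obtain ⟨ha0, hb0, hlt0, hm1, hm2, hn0, hn1, hn2, hn3, hn4, hn5⟩ := key q0 a0 b0 i0 hq0 hab0 hi0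
    set W := E.filter fun e => φ e = φ ⟨q0, ⟨⟨a0, b0⟩, i0⟩⟩ with hW
    have hinj : ∀ e ∈ W, ∀ e' ∈ W, e.1 = e'.1 → e = e' := by
      rintro ⟨q, ⟨⟨a, b⟩, i⟩⟩ he ⟨q', ⟨⟨a', b'⟩, i'⟩⟩ he' hqq
      simp only at hqq
      subst hqq
      rw [hW, Finset.mem_filter, memE] at he he'
      obtain ⟨⟨h1, h2, h3⟩, h4⟩ := he
      obtain ⟨⟨h1', h2', h3'⟩, h4'⟩ := he'
      simp only at h1 h2 h3 h1' h2' h3'
      have h5 := h4.trans h4'.symm
      simp only [φ, Prod.mk.injEq] at h5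
      obtain ⟨ha, hb, hlt, _⟩ := key q a b i h1 h2 h3
      obtain ⟨ha', hb', hlt', _⟩ := key q a' b' i' h1' h2' h3'
      obtain ⟨rfl, rfl⟩ := prime_pair (hU _ ha).1 (hU _ hb).1 (hU _ ha').1 (hU _ hb').1 hlt hlt' h5.1
      have h6 : i = i' := by
        obtain ⟨h7, h8, _⟩ := hn q a b i h1 h2
        obtain ⟨h7', h8', _⟩ := hn q a b i' h1 h2
        rw [h5.2] at h7 h8
        rcases lt_trichotomy i i' with h9 | h9 | h9
        · have : 6 * q ^ 2 * (i + 1) ≤ 6 * q ^ 2 * i' := Nat.mul_le_mul_left _ h9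
          omega
        · exact h9
        · have : 6 * q ^ 2 * (i' + 1) ≤ 6 * q ^ 2 * i := Nat.mul_le_mul_left _ h9
          omega
      rw [h6]
    have hcard : W.card = (W.image fun e => e.1).card := by
      rw [Finset.card_image_of_injOn]
      intro e he e' he' h
      exact hinj e he e' he' h
    rw [hcard]
    refine fib (T := 4 * (a0 * b0) ^ g - n q0 a0 b0 i0 ^ 2) hQ ?_ ?_ ?_
    · intro q hq
      obtain ⟨⟨q', ⟨⟨a, b⟩, i⟩⟩, he, rfl⟩ := Finset.mem_image.1 hq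
      rw [hW, Finset.mem_filter, memE] at he
      obtain ⟨⟨h1, h2, h3⟩, h4⟩ := he
      simp only at h1 h2 h3
      simp only [φ, Prod.mk.injEq] at h4
      obtain ⟨_, _, _, _, _, _, _, _, _, _, h5⟩ := key q' a b i h1 h2 h3
      rw [h4.1, h4.2] at h5
      exact ⟨(hV _ h1).1, (hV _ h1).2.1, h5⟩
    · omega
    · refine lt_of_le_of_lt (Nat.sub_le _ _) (lt_of_le_of_lt ?_ hk)
      exact Nat.mul_le_mul_left 4 (Nat.pow_le_pow_left hm2.le g)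
  -- the pairs
  set S := P.filter fun x => ∃ d q : ℕ, Squarefree d ∧ d % 4 = 3 ∧ Z ≤ d ∧ Q < q ∧
    x.2 ^ 2 + d * q ^ 2 = 4 * x.1 ^ g with hSdef
  refine ⟨S, ?_, ?_⟩
  · -- the pairs with small `d`
    set U2 := (U ×ˢ U).filter fun x => x.1 < x.2 with hU2def
    have hU2card : 2 * U2.card ≤ U.card ^ 2 := by
      refine pairs_card U U2 fun x hx => ?_
      rw [hU2def, Finset.mem_filter, Finset.mem_product] at hx
      exact ⟨hx.1.1, hx.1.2, hx.2⟩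
    have hrep : ∀ (u : ℕ × ℕ) (d : ℕ), ∃ A : Finset ℕ, A.card ≤ 4 ∧ (u ∈ U2 → 0 < d → ∀ y, 0 < y →
        y ≤ 54 * Q ^ 2 * B → Nat.Coprime (u.1 * u.2) y →
        (∃ q, 0 < q ∧ y ^ 2 + d * q ^ 2 = 4 * (u.1 * u.2) ^ g) → y ∈ A) := by
      intro u d
      by_cases h : u ∈ U2 ∧ 0 < d
      · obtain ⟨hu, hd⟩ := h
        rw [hU2def, Finset.mem_filter, Finset.mem_product] at hu
        obtain ⟨⟨hu1, hu2⟩, hlt⟩ := hu
        have h1 : 4 * (54 * Q ^ 2 * B) ^ 2 < (u.1 * u.2) ^ g := by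
          have h2 : 2 * (54 * Q ^ 2 * B) < R ^ g := by
            have : 2 * (54 * Q ^ 2 * B) = 108 * Q ^ 2 * B := by ring
            omega
          have h3 : R ^ 2 ≤ u.1 * u.2 := by
            have := (hU _ hu1).2.1
            have := (hU _ hu2).2.1
            nlinarith
          calc 4 * (54 * Q ^ 2 * B) ^ 2 = (2 * (54 * Q ^ 2 * B)) ^ 2 := by ring
            _ < (R ^ g) ^ 2 := Nat.pow_lt_pow_left h2 two_ne_zero
            _ = (R ^ 2) ^ g := by rw [← pow_mul, ← pow_mul, mul_comm]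
            _ ≤ (u.1 * u.2) ^ g := Nat.pow_le_pow_left h3 g
        have h2 := hREP g d u.1 u.2 (54 * Q ^ 2 * B) hd (hU _ hu1).1 (hU _ hu2).1 hlt.ne
          (hU2 _ hu1) (hU2 _ hu2) h1
        refine ⟨_, h2, fun _ _ y hy1 hy2 hy3 hy4 => ?_⟩
        rw [Finset.mem_filter, Finset.mem_Icc]
        exact ⟨⟨hy1, hy2⟩, hy3, hy4⟩
      · exact ⟨∅, by simp, fun h1 h2 => absurd ⟨h1, h2⟩ h⟩
    choose A hA1 hA2 using hrep
    have hsub : P \ S ⊆ (U2 ×ˢ range Z).biUnion fun w =>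
        (A w.1 w.2).image fun y => (w.1.1 * w.1.2, y) := by
      intro x hx
      rw [Finset.mem_sdiff] at hx
      obtain ⟨hxP, hxS⟩ := hx
      obtain ⟨⟨q0, ⟨⟨a0, b0⟩, i0⟩⟩, he0, rfl⟩ := Finset.mem_image.1 hxP
      obtain ⟨hq0, hab0, hi0⟩ := (memE _).1 he0
      simp only at hq0 hab0 hi0
      obtain ⟨ha0, hb0, hlt0, hm1, hm2, hn0, hn1, hn2, hn3, hn4, hn5⟩ :=
        key q0 a0 b0 i0 hq0 hab0 hi0
      have hle : n q0 a0 b0 i0 ^ 2 ≤ 4 * (a0 * b0) ^ g := by omega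
      obtain ⟨d, q', hd1, hd2, hd3, hd4, hd5⟩ := sqf (T := 4 * (a0 * b0) ^ g - n q0 a0 b0 i0 ^ 2)
        (n := n q0 a0 b0 i0) (m := a0 * b0) (g := g) (q := q0) (Q := Q) (by omega) hn3
        (hV _ hq0).1 hn5 (by omega) (hV _ hq0).2.1
      have hdZ : d < Z := by
        by_contra hno
        exact hxS (Finset.mem_filter.2 ⟨hxP, d, q', hd1, hd2, not_lt.1 hno, hd4, hd5⟩)
      have hmU : (a0, b0) ∈ U2 := by
        rw [hU2def, Finset.mem_filter, Finset.mem_product]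
        exact ⟨⟨ha0, hb0⟩, hlt0⟩
      rw [Finset.mem_biUnion]
      refine ⟨((a0, b0), d), Finset.mem_product.2 ⟨hmU, Finset.mem_range.2 hdZ⟩, ?_⟩
      rw [Finset.mem_image]
      exact ⟨n q0 a0 b0 i0, hA2 (a0, b0) d hmU hd3 _ hn0 hn1 hn4 ⟨q', by omega, hd5⟩, rfl⟩
    have hcardPS : (P \ S).card ≤ U2.card * Z * 4 := by
      refine (Finset.card_le_card hsub).trans ?_
      refine (Finset.card_biUnion_le_card_mul _ _ 4 fun w _ => ?_).trans ?_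
      · exact Finset.card_image_le.trans (hA1 _ _)
      · rw [Finset.card_product, Finset.card_range]
    have hPle : P.card ≤ S.card + 2 * U.card ^ 2 * Z := by
      have h1 : (P \ S).card + S.card = P.card :=
        Finset.card_sdiff_add_card_eq_card (Finset.filter_subset _ _)
      have h2 : U2.card * Z * 4 ≤ 2 * U.card ^ 2 * Z := by nlinarith
      omega
    calc V.card * (U.card * (U.card - 2)) * B ≤ 4 * E.card := hE
      _ ≤ 4 * (k * P.card) := Nat.mul_le_mul_left 4 hfib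
      _ ≤ 4 * (k * (S.card + 2 * U.card ^ 2 * Z)) :=
          Nat.mul_le_mul_left 4 (Nat.mul_le_mul_left k hPle)
      _ = 4 * k * (S.card + 2 * U.card ^ 2 * Z) := by ring
  · intro x hx
    obtain ⟨hxP, hxd⟩ := Finset.mem_filter.1 hx
    obtain ⟨⟨q0, ⟨⟨a0, b0⟩, i0⟩⟩, he0, rfl⟩ := Finset.mem_image.1 hxP
    obtain ⟨hq0, hab0, hi0⟩ := (memE _).1 he0
    simp only at hq0 hab0 hi0
    obtain ⟨ha0, hb0, hlt0, hm1, hm2, hn0, hn1, hn2, hn3, hn4, hn5⟩ :=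
      key q0 a0 b0 i0 hq0 hab0 hi0
    refine ⟨?_, hm2, hn0, hn4, hn2, hxd⟩
    change 1 < a0 * b0
    nlinarith

end Pool.Agent.Y812.CT
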